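import Pool.Agent.H71.RD.Ritt

set_option autoImplicit false

open MvPolynomial

namespace Pool.Agent.H71.RD

/-- the three generators -/
noncomputable def gen (i : Fin 3) : R := ![u, v, w] i

theorem cc_gen (i : Fin 3) : constantCoeff (gen i) = 0 := by
  fin_cases i
  · exact cc_u
  · exact cc_v
  · exact cc_w

/-- the differential algebra generated by `u`, `v`, `w` -/
noncomputable def A0 : Subalgebra ℚ R :=
  Algebra.adjoin ℚ (Set.range (fun p : Fin 3 × ℕ => D^[p.2] (gen p.1)))

theorem gen_mem (i : Fin 3) (n : ℕ) : D^[n] (gen i) ∈ A0 :=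
  Algebra.subset_adjoin ⟨(i, n), rfl⟩

theorem D_mem {a : R} (ha : a ∈ A0) : D a ∈ A0 := by
  unfold A0 at ha
  induction ha using Algebra.adjoin_induction with
  | mem x hx =>
    obtain ⟨⟨i, n⟩, rfl⟩ := hx
    have := gen_mem i (n + 1)
    rwa [Function.iterate_succ_apply'] at this
  | algebraMap q => rw [D.map_algebraMap]; exact A0.zero_mem
  | add x y hx hy h1 h2 => rw [map_add]; exact A0.add_mem h1 h2
  | mul x y hx hy h1 h2 =>
    rw [Derivation.leibniz]
    exact A0.add_mem (A0.mul_mem hx h2) (A0.mul_mem hy h1)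

/-- the domain `A` -/
abbrev A : Type := A0

/-- the derivation of `A` -/
noncomputable def DA : Derivation ℤ A A where
  toFun a := ⟨D a.1, D_mem a.2⟩
  map_add' a b := Subtype.ext (map_add D a.1 b.1)
  map_smul' n a := Subtype.ext (by
    change D (n • a.1) = n • D a.1
    exact map_zsmul D n a.1)
  map_one_eq_zero' := Subtype.ext (by
    change D 1 = 0
    exact D.map_one_eq_zero)
  leibniz' a b := Subtype.ext (by
    change D (a.1 * b.1) = a.1 * D b.1 + b.1 * D a.1
    rw [Derivation.leibniz]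
    rfl)

theorem DA_coe (a : A) : ((DA a : A) : R) = D a.1 := rfl

theorem DA_iter (n : ℕ) (a : A) : ((DA^[n] a : A) : R) = D^[n] a.1 := by
  induction n with
  | zero => rfl
  | succ n ih => rw [Function.iterate_succ_apply', Function.iterate_succ_apply', DA_coe, ih]

noncomputable instance : Differential A := ⟨DA⟩

noncomputable instance : Differential ℚ := ⟨0⟩

noncomputable def gA (i : Fin 3) : A := ⟨gen i, gen_mem i 0⟩

noncomputable def uA : A := gA 0
noncomputable def vA : A := gA 1
noncomputable def wA : A := gA 2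

theorem uA_coe : (uA : R) = u := rfl
theorem vA_coe : (vA : R) = v := rfl
theorem wA_coe : (wA : R) = w := rfl

/-- the augmentation -/
noncomputable def aug : A →+* ℚ := (constantCoeff : R →+* ℚ).comp A0.val.toRingHom

theorem aug_apply (a : A) : aug a = constantCoeff a.1 := rfl

/-- the augmentation ideal -/
noncomputable def P : Ideal A := RingHom.ker aug

instance P_prime : P.IsPrime := RingHom.ker_isPrime aug

/-- the differential ideal `[w]` -/
noncomputable def I : Ideal A := Ideal.span (Set.range (fun n : ℕ => DA^[n] wA))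

theorem I_D {a : A} (ha : a ∈ I) : DA a ∈ I := by
  unfold I at ha
  induction ha using Submodule.span_induction with
  | mem x hx =>
    obtain ⟨n, rfl⟩ := hx
    exact Ideal.subset_span ⟨n + 1, Function.iterate_succ_apply' _ _ _⟩
  | zero => rw [map_zero]; exact I.zero_mem
  | add x y hx hy h1 h2 => rw [map_add]; exact I.add_mem h1 h2
  | smul c x hx h1 =>
    rw [smul_eq_mul, Derivation.leibniz, smul_eq_mul, smul_eq_mul]
    exact I.add_mem (I.mul_mem_left _ h1) (I.mul_mem_right _ hx)

/-- division by a nonzero natural number -/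
theorem I_nsmul {J : Ideal A} {a : A} {n : ℕ} (hn : n ≠ 0) (h : (n : A) * a ∈ J) : a ∈ J := by
  have h1 : a = (algebraMap ℚ A ((n : ℚ)⁻¹)) * ((n : A) * a) := by
    rw [← mul_assoc]
    have : (algebraMap ℚ A ((n : ℚ)⁻¹)) * (n : A) = 1 := by
      rw [← map_natCast (algebraMap ℚ A) n, ← map_mul, inv_mul_cancel₀ (by exact_mod_cast hn), map_one]
    rw [this, one_mul]
  rw [h1]
  exact J.mul_mem_left _ h

/-- the powers of the derivative: `a ^ (n - k) a' ^ (2 k)` -/
theorem pow_aux (n : ℕ) {a : A} (ha : a ^ n ∈ I) (k : ℕ) (hk : k ≤ n) :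
    a ^ (n - k) * (DA a) ^ (2 * k) ∈ I := by
  induction k with
  | zero => simpa using ha
  | succ k ih =>
    have h1 := ih (by omega)
    obtain ⟨m, hm⟩ : ∃ m, n - k = m + 1 := ⟨n - k - 1, by omega⟩
    have hm' : n - (k + 1) = m := by omega
    rw [hm] at h1
    rw [hm']
    have h2 := I_D h1
    have h3 : ((m + 1 : ℕ) : A) * (a ^ m * (DA a) ^ (2 * (k + 1))) =
        DA a * DA (a ^ (m + 1) * (DA a) ^ (2 * k)) -
          (2 * k : ℕ) * (DA (DA a)) * (a ^ (m + 1) * (DA a) ^ (2 * k)) := by
      rw [Derivation.leibniz, Derivation.leibniz_pow, Derivation.leibniz_pow]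
      simp only [smul_eq_mul, nsmul_eq_mul, Nat.add_sub_cancel]
      rcases Nat.eq_zero_or_pos k with rfl | hk0
      · simp
        ring
      · obtain ⟨j, hj⟩ : ∃ j, 2 * k = j + 1 := ⟨2 * k - 1, by omega⟩
        have : 2 * (k + 1) = j + 3 := by omega
        rw [hj, this]
        simp only [Nat.add_sub_cancel]
        push_cast
        ring
    apply I_nsmul (Nat.succ_ne_zero m)
    rw [h3]
    exact I.sub_mem (I.mul_mem_left _ h2) (I.mul_mem_left _ h1)

theorem rad_D {a : A} (ha : a ∈ I.radical) : DA a ∈ I.radical := by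
  obtain ⟨n, hn⟩ := ha
  have := pow_aux n hn n le_rfl
  rw [Nat.sub_self, pow_zero, one_mul] at this
  exact ⟨2 * n, this⟩

theorem rad_iter {a : A} (ha : a ∈ I.radical) (n : ℕ) : DA^[n] a ∈ I.radical := by
  induction n with
  | zero => exact ha
  | succ n ih => rw [Function.iterate_succ_apply']; exact rad_D ih

theorem w_mem : wA ∈ I := Ideal.subset_span ⟨0, rfl⟩
theorem Dw_mem : DA wA ∈ I := I_D w_mem

theorem u_mem : uA ∈ I.radical := by
  refine ⟨4, I_nsmul (n := 5) (by norm_num) ?_⟩
  have h : ((5 : ℕ) : A) * uA ^ 4 = vA * (uA * DA vA - vA * DA uA) * DA wA +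
      (2 * vA * DA (uA * DA vA - vA * DA uA) - 5 * DA vA * (uA * DA vA - vA * DA uA)) * wA := by
    apply Subtype.ext
    have h := key
    have e : ((uA * DA vA - vA * DA uA : A) : R) = W := rfl
    have e1 : ((DA (uA * DA vA - vA * DA uA) : A) : R) = D W := rfl
    push_cast
    rw [uA_coe, vA_coe, wA_coe, DA_coe, DA_coe, DA_coe, DA_coe, uA_coe, vA_coe, wA_coe]
    rw [show u * D v - v * D u = W from rfl]
    rw [show ((5 : A) : R) = 5 from rfl, show ((2 : A) : R) = 2 from rfl, e]
    rw [h]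
    ring
  rw [h]
  exact I.add_mem (I.mul_mem_left _ Dw_mem) (I.mul_mem_left _ w_mem)

theorem v_mem : vA ∈ I.radical := by
  have h : vA ^ 5 = uA ^ 5 + wA * (uA * DA vA - vA * DA uA) ^ 2 := Subtype.ext eqn
  have h1 : vA ^ 5 ∈ I.radical := by
    rw [h]
    refine I.radical.add_mem (Ideal.pow_mem_of_mem _ u_mem 5 (by norm_num)) ?_
    exact I.radical.mul_mem_right _ (Ideal.le_radical w_mem)
  exact (Ideal.radical_isRadical I) ⟨5, h1⟩

theorem g_mem (i : Fin 3) : gA i ∈ I.radical := by
  fin_cases i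
  · exact u_mem
  · exact v_mem
  · exact Ideal.le_radical w_mem

theorem aug_spec (a : A) : a - algebraMap ℚ A (aug a) ∈ I.radical := by
  obtain ⟨a, ha⟩ := a
  have key : ∀ (x : R) (hx : x ∈ A0), (⟨x, hx⟩ : A) - algebraMap ℚ A (constantCoeff x) ∈ I.radical := by
    intro x hx
    have hx' : x ∈ Algebra.adjoin ℚ (Set.range (fun p : Fin 3 × ℕ => D^[p.2] (gen p.1))) := hx
    induction hx' using Algebra.adjoin_induction with
    | mem x hx0 =>
      obtain ⟨⟨i, n⟩, rfl⟩ := hx0
      rw [cc_iter (cc_gen i) n, map_zero, sub_zero]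
      have := rad_iter (g_mem i) n
      have e : (⟨D^[n] (gen i), hx⟩ : A) = DA^[n] (gA i) := Subtype.ext (by rw [DA_iter]; rfl)
      rw [e]
      exact this
    | algebraMap q =>
      have e : (⟨algebraMap ℚ R q, hx⟩ : A) = algebraMap ℚ A q := rfl
      rw [e, MvPolynomial.algebraMap_eq, constantCoeff_C, sub_self]
      exact I.radical.zero_mem
    | add x y hx0 hy0 h1 h2 =>
      have e : (⟨x + y, hx⟩ : A) = ⟨x, hx0⟩ + ⟨y, hy0⟩ := rfl
      rw [e, map_add, map_add]
      have := I.radical.add_mem (h1 hx0) (h2 hy0)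
      convert this using 1
      ring
    | mul x y hx0 hy0 h1 h2 =>
      have e : (⟨x * y, hx⟩ : A) = ⟨x, hx0⟩ * ⟨y, hy0⟩ := rfl
      rw [e, map_mul, map_mul]
      have := I.radical.add_mem (I.radical.mul_mem_left ⟨x, hx0⟩ (h2 hy0))
        (I.radical.mul_mem_right (algebraMap ℚ A (constantCoeff y)) (h1 hx0))
      convert this using 1
      ring
  exact key a ha

theorem P_le : P ≤ I.radical := by
  intro a ha
  have h1 : aug a = 0 := ha
  have := aug_spec a
  rwa [h1, map_zero, sub_zero] at this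

theorem I_le : I ≤ P := by
  unfold I
  rw [Ideal.span_le]
  rintro _ ⟨n, rfl⟩
  change aug _ = 0
  rw [aug_apply, DA_iter, wA_coe]
  exact cc_iter cc_w n

theorem P_minimal : P ∈ I.minimalPrimes := by
  refine ⟨⟨P_prime, I_le⟩, ?_⟩
  rintro Q ⟨hQ, hIQ⟩ -
  exact P_le.trans ((hQ.radical_le_iff).2 hIQ)

theorem w_not_unit : ¬ IsUnit wA := by
  intro h
  have := h.map aug
  rw [aug_apply, wA_coe, cc_w] at this
  exact not_isUnit_zero this

/-- every element of `A / P` is a rational number -/
theorem quot_const (a : A) : Ideal.Quotient.mk P a = algebraMap ℚ (A ⧸ P) (aug a) := by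
  have h1 : (algebraMap ℚ (A ⧸ P) (aug a)) = Ideal.Quotient.mk P (algebraMap ℚ A (aug a)) := rfl
  rw [h1, Ideal.Quotient.eq]
  change aug _ = 0
  rw [map_sub, aug_apply (algebraMap ℚ A (aug a))]
  have : ((algebraMap ℚ A (aug a) : A) : R) = C (aug a) := rfl
  rw [this, constantCoeff_C, sub_self]

end Pool.Agent.H71.RD
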