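import Pool.Agent.H71.RD.Alg

set_option autoImplicit false

open MvPolynomial
open scoped PowerSeries.WithPiTopology

namespace Pool.Agent.H71.RD

/-- the field of the rational functions in the variables `U k`, `V k` -/
abbrev F : Type := FractionRing R

noncomputable def var (p : Bool × ℕ) : F := algebraMap R F (X p)

theorem var_inj {p q : Bool × ℕ} (h : var p = var q) : p = q :=
  X_injective (FaithfulSMul.algebraMap_injective R F h)

theorem var_ne (p : Bool × ℕ) : var p ≠ 0 := by
  intro h
  exact X_ne_zero p ((map_eq_zero_iff _ (FaithfulSMul.algebraMap_injective R F)).1 h)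

noncomputable def ser (b : Bool) : PowerSeries F := PowerSeries.mk (fun n => var (b, n) / (n.factorial : F))

theorem cc_ser (b : Bool) (n : ℕ) :
    PowerSeries.constantCoeff ((PowerSeries.derivative F)^[n] (ser b)) = var (b, n) := by
  rw [PowerSeries.constantCoeff_iterate_derivative]
  unfold ser
  rw [PowerSeries.coeff_mk]
  have : (n.factorial : F) ≠ 0 := by exact_mod_cast n.factorial_ne_zero
  field_simp

theorem cc_ser0 (b : Bool) : PowerSeries.constantCoeff (ser b) = var (b, 0) := cc_ser b 0

theorem cc_ser1 (b : Bool) :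
    PowerSeries.constantCoeff (PowerSeries.derivative F (ser b)) = var (b, 1) := cc_ser b 1

noncomputable def rs : PowerSeries F := ser false * (ser true)⁻¹

theorem rs_mul : rs * ser true = ser false := by
  unfold rs
  rw [mul_assoc, PowerSeries.inv_mul_cancel _ (by rw [cc_ser0]; exact var_ne _), mul_one]

theorem cc_r1s : PowerSeries.constantCoeff (PowerSeries.derivative F rs) ≠ 0 := by
  intro h
  have h1 := congrArg (fun f => PowerSeries.constantCoeff (PowerSeries.derivative F f)) rs_mul
  simp only [Derivation.leibniz, map_add, smul_eq_mul, map_mul] at h1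
  rw [h, cc_ser0, cc_ser1, cc_ser1, mul_zero, add_zero] at h1
  have h2 := congrArg PowerSeries.constantCoeff rs_mul
  rw [map_mul, cc_ser0, cc_ser0] at h2
  -- `U₁ V₀ = U₀ V₁`
  have h3 : var (false, 1) * var (true, 0) = var (false, 0) * var (true, 1) := by
    rw [← h1, ← h2]
    ring
  unfold var at h3
  rw [← map_mul, ← map_mul] at h3
  have h4 : (X (false, 1) * X (true, 0) : R) = X (false, 0) * X (true, 1) :=
    FaithfulSMul.algebraMap_injective R F h3
  have h5 := congrArg (MvPolynomial.eval (fun p : Bool × ℕ =>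
    if p = (false, 1) ∨ p = (true, 0) then (1 : ℚ) else 0)) h4
  simp at h5

noncomputable def ys : PowerSeries F := ser true * ((PowerSeries.derivative F rs) ^ 2)⁻¹

theorem ys_mul : ys * (PowerSeries.derivative F rs) ^ 2 = ser true := by
  unfold ys
  rw [mul_assoc, PowerSeries.inv_mul_cancel _ (by rw [map_pow]; exact pow_ne_zero _ cc_r1s), mul_one]

/-- the solution `r = U / V`, `y = V / r'²` in power series -/
noncomputable def psi : R →ₐ[ℚ] PowerSeries F :=
  aeval (fun p : Bool × ℕ => (PowerSeries.derivative F)^[p.2] (if p.1 = true then ys else rs))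

theorem psi_X (p : Bool × ℕ) :
    psi (X p) = (PowerSeries.derivative F)^[p.2] (if p.1 = true then ys else rs) := aeval_X _ _

theorem psi_D (p : R) : psi (D p) = PowerSeries.derivative F (psi p) := by
  induction p using MvPolynomial.induction_on with
  | C a =>
    have h1 : D (C a) = 0 := by
      have := D.map_algebraMap a
      rwa [MvPolynomial.algebraMap_eq] at this
    have h2 : psi (C a) = PowerSeries.C (algebraMap ℚ F a) := by
      rw [← MvPolynomial.algebraMap_eq, AlgHom.commutes, IsScalarTower.algebraMap_apply ℚ F (PowerSeries F)]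
      rfl
    rw [h1, map_zero, h2, PowerSeries.derivative_C]
  | add p q hp hq => rw [map_add, map_add, map_add, map_add, hp, hq]
  | mul_X p n hp =>
    rw [Derivation.leibniz, map_add, smul_eq_mul, smul_eq_mul, map_mul, map_mul, map_mul, hp, D_X,
      Derivation.leibniz, smul_eq_mul, smul_eq_mul, psi_X, psi_X, Function.iterate_succ_apply']

theorem psi_iter (n : ℕ) (p : R) : psi (D^[n] p) = (PowerSeries.derivative F)^[n] (psi p) := by
  induction n with
  | zero => rfl
  | succ n ih => rw [Function.iterate_succ_apply', Function.iterate_succ_apply', psi_D, ih]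

theorem psi_v : psi v = ser true := by
  unfold v
  have h1 : psi y = ys := by unfold y; rw [psi_X]; rfl
  have h2 : psi r1 = PowerSeries.derivative F rs := by unfold r1; rw [psi_X]; rfl
  rw [map_mul, map_pow, h1, h2, ys_mul]

theorem psi_u : psi u = ser false := by
  have h1 : u = r * v := by unfold u v; ring
  have h2 : psi r = rs := by unfold r; rw [psi_X]; rfl
  rw [h1, map_mul, psi_v, h2, rs_mul]

/-- the composition with the constant coefficient -/
noncomputable def psi0 : A →ₐ[ℚ] F :=
  ((({ (PowerSeries.constantCoeff : PowerSeries F →+* F) with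
      commutes' := fun q => by
        change PowerSeries.constantCoeff (algebraMap ℚ (PowerSeries F) q) = _
        rw [IsScalarTower.algebraMap_apply ℚ F (PowerSeries F)]
        exact PowerSeries.constantCoeff_C _ } : PowerSeries F →ₐ[ℚ] F)).comp psi).comp A0.val

theorem psi0_apply (a : A) : psi0 a = PowerSeries.constantCoeff (psi a.1) := rfl

theorem psi0_u (n : ℕ) : psi0 (DA^[n] uA) = var (false, n) := by
  rw [psi0_apply, DA_iter, uA_coe, psi_iter, psi_u, cc_ser]

theorem psi0_v (n : ℕ) : psi0 (DA^[n] vA) = var (true, n) := by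
  rw [psi0_apply, DA_iter, vA_coe, psi_iter, psi_v, cc_ser]

theorem uA_ne_vA : uA ≠ vA := by
  intro h
  have h1 := psi0_u 0
  rw [h, psi0_v] at h1
  have := var_inj h1
  simp at this

open scoped Classical in
theorem indep : ∃ S : Finset A, S.card = 2 ∧
    AlgebraicIndependent ℚ (fun p : S × ℕ => DA^[p.2] (p.1 : A)) := by
  refine ⟨{uA, vA}, Finset.card_pair uA_ne_vA, ?_⟩
  apply AlgebraicIndependent.of_comp psi0
  have hv : AlgebraicIndependent ℚ var := by
    have h := MvPolynomial.algebraicIndependent_X (Bool × ℕ) ℚ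
    exact h.map' (f := IsScalarTower.toAlgHom ℚ R F) (FaithfulSMul.algebraMap_injective R F)
  let e : (({uA, vA} : Finset A) × ℕ) → Bool × ℕ := fun p => (decide ((p.1 : A) = vA), p.2)
  have he : Function.Injective e := by
    rintro ⟨⟨a, ha⟩, n⟩ ⟨⟨b, hb⟩, m⟩ h
    rw [Finset.mem_insert, Finset.mem_singleton] at ha hb
    have h1 : decide (a = vA) = decide (b = vA) := congrArg Prod.fst h
    have h2 : n = m := congrArg Prod.snd h
    have h3 : a = b := by
      rcases ha with rfl | rfl <;> rcases hb with rfl | rfl
      · rfl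
      · simp [uA_ne_vA] at h1
      · simp [uA_ne_vA] at h1
      · rfl
    subst h2
    subst h3
    rfl
  have := hv.comp e he
  convert this using 1
  funext ⟨⟨a, ha⟩, n⟩
  rw [Finset.mem_insert, Finset.mem_singleton] at ha
  change psi0 (DA^[n] a) = var (decide (a = vA), n)
  rcases ha with rfl | rfl
  · rw [psi0_u]
    simp [uA_ne_vA]
  · rw [psi0_v]
    simp

open scoped Classical in
/-- the set of the generators -/
noncomputable def S0 : Finset A := Finset.univ.image gA

/-- `A` is differentially generated by `u`, `v`, `w` -/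
theorem adjoin_top : Algebra.adjoin ℚ
    (Set.range (fun p : S0 × ℕ => DA^[p.2] (p.1 : A))) = ⊤ := by
  rw [eq_top_iff]
  rintro ⟨a, ha⟩ -
  have ha' : a ∈ Algebra.adjoin ℚ (Set.range (fun p : Fin 3 × ℕ => D^[p.2] (gen p.1))) := ha
  induction ha' using Algebra.adjoin_induction with
  | mem x hx =>
    obtain ⟨⟨i, n⟩, rfl⟩ := hx
    apply Algebra.subset_adjoin
    refine ⟨(⟨gA i, Finset.mem_image.2 ⟨i, Finset.mem_univ _, rfl⟩⟩, n), ?_⟩
    apply Subtype.ext
    change ((DA^[n] (gA i) : A) : R) = D^[n] (gen i)
    rw [DA_iter]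
    rfl
  | algebraMap q => exact Subalgebra.algebraMap_mem _ q
  | add x y hx hy h1 h2 =>
    have e : (⟨x + y, ha⟩ : A) = ⟨x, hx⟩ + ⟨y, hy⟩ := rfl
    rw [e]
    exact add_mem (h1 hx) (h2 hy)
  | mul x y hx hy h1 h2 =>
    have e : (⟨x * y, ha⟩ : A) = ⟨x, hx⟩ * ⟨y, hy⟩ := rfl
    rw [e]
    exact mul_mem (h1 hx) (h2 hy)

end Pool.Agent.H71.RD
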