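import Mathlib

/-!
# Ritt's anomaly: an irreducible differential variety of dimension two whose intersection with a hyperplane
# is one point

In the differential polynomial ring `ℚ{r, y}` let `u = r y r'²`, `v = y r'²`, `w = y (1 - r⁵)`, so that
`w (u v' - v u')² = v⁵ - u⁵`. The differential algebra generated by `u, v, w` is a domain of differential
transcendence degree two, and the only prime ideal over `[w]` contained in the augmentation ideal is the
augmentation ideal itself.
-/

set_option autoImplicit false

open MvPolynomial

namespace Pool.Agent.H71.RD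

/-- the differential polynomials in `r`, `y` -/
abbrev R : Type := MvPolynomial (Bool × ℕ) ℚ

/-- the derivation -/
noncomputable def D : Derivation ℚ R R := mkDerivation ℚ (fun p => X (p.1, p.2 + 1))

noncomputable def r : R := X (false, 0)
noncomputable def r1 : R := X (false, 1)
noncomputable def r2 : R := X (false, 2)
noncomputable def y : R := X (true, 0)
noncomputable def y1 : R := X (true, 1)

theorem D_X (p : Bool × ℕ) : D (X p) = X (p.1, p.2 + 1) := mkDerivation_X _ _ _

theorem D_r : D r = r1 := D_X _
theorem D_r1 : D r1 = r2 := D_X _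
theorem D_y : D y = y1 := D_X _

noncomputable def u : R := r * y * r1 ^ 2
noncomputable def v : R := y * r1 ^ 2
noncomputable def w : R := y * (1 - r ^ 5)

theorem D_v : D v = y1 * r1 ^ 2 + 2 * y * r1 * r2 := by
  unfold v
  rw [Derivation.leibniz, Derivation.leibniz_pow, D_y, D_r1]
  simp only [smul_eq_mul, nsmul_eq_mul]
  push_cast
  ring

theorem D_u : D u = r1 * y * r1 ^ 2 + r * y1 * r1 ^ 2 + 2 * r * y * r1 * r2 := by
  unfold u
  rw [Derivation.leibniz, Derivation.leibniz, Derivation.leibniz_pow, D_y, D_r1, D_r]
  simp only [smul_eq_mul, nsmul_eq_mul]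
  push_cast
  ring

theorem D_w : D w = y1 * (1 - r ^ 5) - 5 * y * r ^ 4 * r1 := by
  unfold w
  rw [Derivation.leibniz, map_sub, Derivation.leibniz_pow, D_y, D_r]
  simp only [smul_eq_mul, nsmul_eq_mul, Derivation.map_one_eq_zero]
  push_cast
  ring

/-- the Wronskian -/
noncomputable def W : R := u * D v - v * D u

theorem W_eq : W = - r1 * v ^ 2 := by
  unfold W
  rw [D_v, D_u]
  unfold u v
  ring

theorem D_W : D W = - r2 * v ^ 2 - 2 * r1 * v * D v := by
  rw [W_eq, Derivation.leibniz, Derivation.leibniz_pow, map_neg, D_r1]
  simp only [smul_eq_mul, nsmul_eq_mul]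
  push_cast
  ring

/-- the equation of the variety -/
theorem eqn : v ^ 5 = u ^ 5 + w * W ^ 2 := by
  rw [W_eq]
  unfold u v w
  ring

/-- the relation which shows that `u` is nilpotent modulo `[w]` -/
theorem key : 5 * u ^ 4 = v * D w * W + 2 * v * w * D W - 5 * D v * w * W := by
  rw [D_W, W_eq, D_v, D_w]
  unfold u v w
  ring

theorem cc_D (p : R) : constantCoeff (D p) = 0 := by
  induction p using MvPolynomial.induction_on with
  | C a => 
    have : D (C a) = 0 := by
      have := D.map_algebraMap a
      rwa [MvPolynomial.algebraMap_eq] at this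
    rw [this, map_zero]
  | add p q hp hq => rw [map_add, map_add, hp, hq, add_zero]
  | mul_X p n hp =>
    rw [Derivation.leibniz, map_add, smul_eq_mul, smul_eq_mul, map_mul, map_mul, hp, D_X,
      constantCoeff_X, constantCoeff_X]
    ring

theorem cc_iter {p : R} (hp : constantCoeff p = 0) (n : ℕ) : constantCoeff (D^[n] p) = 0 := by
  cases n with
  | zero => exact hp
  | succ n => rw [Function.iterate_succ_apply']; exact cc_D _

theorem cc_u : constantCoeff u = 0 := by unfold u y; simp
theorem cc_v : constantCoeff v = 0 := by unfold v y; simp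
theorem cc_w : constantCoeff w = 0 := by unfold w y; simp

end Pool.Agent.H71.RD
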